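import Mathlib

set_option autoImplicit false
open Complex Filter Topology

namespace Pool.Agent.Results.MP_2e7b1e_an.PhiEqPi

/-- `Γ` is a piecewise analytic Jordan arc from the finite point `ω₀` to `∞`. -/
def IsSlit (Γ : Set ℂ) (ω₀ : ℂ) : Prop :=
  ∃ γ : ℝ → ℂ, ContinuousOn γ (Set.Ici 0) ∧ Set.InjOn γ (Set.Ici 0) ∧ γ 0 = ω₀ ∧
    Tendsto (fun s => ‖γ s‖) atTop atTop ∧ γ '' (Set.Ici 0) = Γ ∧
    ∃ (n : ℕ) (t : ℕ → ℝ), t 0 = 0 ∧ StrictMono t ∧
      (∀ i < n, AnalyticOn ℝ γ (Set.Icc (t i) (t (i+1)))) ∧ AnalyticOn ℝ γ (Set.Ici (t n))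

/-- `f ∈ Σ_α`, with tip `ω₀`. -/
structure InSigma (α : ℝ) (f : ℂ → ℂ) (ω₀ : ℂ) : Prop where
  diff : DifferentiableOn ℂ f (Metric.ball 0 1)
  inj : Set.InjOn f (Metric.ball 0 1)
  zero : f 0 = 0
  one : deriv f 0 = 1
  slit : IsSlit (f '' Metric.ball 0 1)ᶜ ω₀
  sector : ∃ θ₀ : ℝ, ∀ ω ∈ (f '' Metric.ball 0 1)ᶜ, ω ≠ ω₀ →
    ∃ r : ℝ, 0 < r ∧ ∃ t ∈ Set.Icc θ₀ (θ₀ + α * Real.pi), ω = ω₀ + r * Complex.exp (t * I)

/-- the set of values `|φ_f|`, `f ∈ Σ_α`, `f(-1) = ∞`. -/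
def PhiSet (α : ℝ) : Set ℝ :=
  {x | ∃ (f : ℂ → ℂ) (ω₀ : ℂ) (φ : ℝ), InSigma α f ω₀ ∧ φ ∈ Set.Ioo (-Real.pi) Real.pi ∧
    Tendsto f (𝓝[Metric.ball 0 1] (-1)) (cocompact ℂ) ∧
    Tendsto f (𝓝[Metric.ball 0 1] (Complex.exp (φ * I))) (𝓝 ω₀) ∧ x = |φ|}

noncomputable section

def w (z : ℂ) : ℂ := (1 - z)/(1 + z)
def B (τ : ℝ) : ℂ := -1/(4*(1 + τ*I))
def f (τ : ℝ) (z : ℂ) : ℂ := B τ * ((w z + τ*I)^2 - (1 + τ*I)^2)

lemma one_add_ne {z : ℂ} (hz : z ∈ Metric.ball (0:ℂ) 1) : 1 + z ≠ 0 := by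
  intro h
  have : z = -1 := by linear_combination h
  rw [this, Metric.mem_ball, dist_zero_right, norm_neg, norm_one] at hz
  exact lt_irrefl _ hz

lemma tau_ne (τ : ℝ) : (1 + τ*I : ℂ) ≠ 0 := by
  intro h
  have := congrArg Complex.re h
  simp at this

lemma B_ne (τ : ℝ) : B τ ≠ 0 := by
  unfold B
  exact div_ne_zero (by norm_num) (mul_ne_zero (by norm_num) (tau_ne τ))

lemma w_re {z : ℂ} (hz : z ∈ Metric.ball (0:ℂ) 1) : 0 < (w z).re := by
  have h1 := one_add_ne hz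
  rw [Metric.mem_ball, dist_zero_right] at hz
  unfold w
  rw [Complex.div_re, ← add_div]
  apply div_pos
  · have h2 : ‖z‖^2 = z.re^2 + z.im^2 := by
      rw [← Complex.normSq_eq_norm_sq, Complex.normSq_apply]; ring
    simp only [Complex.add_re, Complex.sub_re, Complex.one_re, Complex.add_im, Complex.sub_im, Complex.one_im]
    nlinarith [norm_nonneg z]
  · exact Complex.normSq_pos.mpr h1

lemma w_surj {u : ℂ} (hu : 0 < u.re) : ∃ z ∈ Metric.ball (0:ℂ) 1, w z = u := by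
  have h1 : 1 + u ≠ 0 := by
    intro h
    have := congrArg Complex.re h
    simp at this; linarith
  refine ⟨(1-u)/(1+u), ?_, ?_⟩
  · rw [Metric.mem_ball, dist_zero_right, norm_div, div_lt_one (norm_pos_iff.mpr h1)]
    apply lt_of_pow_lt_pow_left₀ 2 (norm_nonneg _)
    rw [← Complex.normSq_eq_norm_sq, ← Complex.normSq_eq_norm_sq, Complex.normSq_apply, Complex.normSq_apply]
    simp only [Complex.add_re, Complex.sub_re, Complex.one_re, Complex.add_im, Complex.sub_im, Complex.one_im]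
    nlinarith
  · unfold w
    have e1 : 1 - (1-u)/(1+u) = 2*u/(1+u) := by field_simp; ring
    have e2 : 1 + (1-u)/(1+u) = 2/(1+u) := by field_simp; ring
    rw [e1, e2, div_div_div_cancel_right₀ h1]
    field_simp

lemma w_inj {x y : ℂ} (hx : x ∈ Metric.ball (0:ℂ) 1) (hy : y ∈ Metric.ball (0:ℂ) 1) (h : w x = w y) : x = y := by
  unfold w at h
  rw [div_eq_div_iff (one_add_ne hx) (one_add_ne hy)] at h
  linear_combination (-1/2:ℂ)*h

lemma f_inj (τ : ℝ) : Set.InjOn (f τ) (Metric.ball 0 1) := by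
  intro x hx y hy h
  apply w_inj hx hy
  unfold f at h
  have h1 := mul_left_cancel₀ (B_ne τ) h
  have h2 : (w x - w y) * ((w x + τ*I) + (w y + τ*I)) = 0 := by linear_combination h1
  rcases mul_eq_zero.mp h2 with h3 | h3
  · exact sub_eq_zero.mp h3
  · exfalso
    have := congrArg Complex.re h3
    simp at this
    linarith [w_re hx, w_re hy]

lemma w_deriv {z : ℂ} (hz : 1 + z ≠ 0) : HasDerivAt w (-2/(1+z)^2) z := by
  have h1 : HasDerivAt (fun z : ℂ => 1 - z) (-1) z := by simpa using (hasDerivAt_id z).const_sub 1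
  have h2 : HasDerivAt (fun z : ℂ => 1 + z) 1 z := by simpa using (hasDerivAt_id z).const_add 1
  have h3 := h1.fun_div h2 hz
  refine h3.congr_deriv ?_
  congr 1
  ring

lemma f_deriv (τ : ℝ) {z : ℂ} (hz : 1 + z ≠ 0) :
    HasDerivAt (f τ) (B τ * (2 * (w z + τ*I) * (-2/(1+z)^2))) z := by
  have h1 := ((((w_deriv hz).add_const (τ*I : ℂ)).fun_pow 2).sub_const ((1 + τ*I : ℂ)^2)).const_mul (B τ)
  refine h1.congr_deriv ?_
  norm_num

lemma f_image (τ : ℝ) (ω : ℂ) : ω ∈ f τ '' Metric.ball 0 1 ↔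
    ¬ ∃ s : ℝ, 0 ≤ s ∧ ω = (1 + τ*I)/4 + s * (-(B τ)) := by
  have hB := B_ne τ
  have ht := tau_ne τ
  have hω0 : -(B τ) * (1 + τ*I)^2 = (1 + τ*I)/4 := by
    unfold B; field_simp
  constructor
  · rintro ⟨z, hz, rfl⟩ ⟨s, hs, h⟩
    unfold f at h
    have h1 : (w z + τ*I)^2 = ((-s : ℝ) : ℂ) := by
      apply mul_left_cancel₀ hB
      rw [← hω0] at h
      push_cast
      linear_combination h
    set u := w z + τ*I with hu
    have hre : 0 < u.re := by
      rw [hu]; simp; exact w_re hz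
    have h2 := congrArg Complex.re h1
    have h3 := congrArg Complex.im h1
    rw [sq, Complex.mul_re, Complex.ofReal_re] at h2
    rw [sq, Complex.mul_im, Complex.ofReal_im] at h3
    have h4 : u.im = 0 := by
      have : u.re * (2 * u.im) = 0 := by linarith
      rcases mul_eq_zero.mp this with h | h
      · linarith
      · linarith
    rw [h4] at h2
    nlinarith
  · intro hn
    set Q : ℂ := (ω - (1 + τ*I)/4) / B τ with hQ
    have hQω : ω = (1 + τ*I)/4 + Q * B τ := by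
      rw [hQ, div_mul_cancel₀ _ hB]; ring
    have hslit : Q ∈ slitPlane := by
      rw [Complex.mem_slitPlane_iff]
      by_contra hc
      push Not at hc
      apply hn
      refine ⟨-Q.re, by linarith [hc.1], ?_⟩
      have hQr : Q = ((Q.re : ℝ) : ℂ) := by
        apply Complex.ext
        · simp
        · rw [Complex.ofReal_im]; exact hc.2
      rw [hQω]
      conv_lhs => rw [hQr]
      push_cast; ring
    have hQ0 : Q ≠ 0 := Complex.slitPlane_ne_zero hslit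
    set u := Complex.exp (Complex.log Q / 2) with hu
    have hu2 : u^2 = Q := by
      rw [hu, ← Complex.exp_nat_mul]
      have : ((2:ℕ):ℂ) * (Complex.log Q / 2) = Complex.log Q := by push_cast; ring
      rw [this, Complex.exp_log hQ0]
    have hure : 0 < u.re := by
      rw [hu, Complex.exp_re]
      apply mul_pos (Real.exp_pos _)
      have h1 : Complex.arg Q < Real.pi := lt_of_le_of_ne (Complex.arg_le_pi Q) (Complex.mem_slitPlane_iff_arg.mp hslit).1
      have h2 := Complex.neg_pi_lt_arg Q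
      have h3 : (Complex.log Q / 2).im = Complex.arg Q / 2 := by
        rw [← Complex.log_im]; simp
      rw [h3]
      apply Real.cos_pos_of_mem_Ioo
      constructor <;> linarith
    obtain ⟨z, hz, hwz⟩ := w_surj (u := u - τ*I) (by simpa using hure)
    refine ⟨z, hz, ?_⟩
    unfold f
    rw [hwz, hQω, ← hu2, ← hω0]
    ring

lemma f_sigma {α : ℝ} (hα : 0 < α) (τ : ℝ) : InSigma α (f τ) ((1 + τ*I)/4) := by
  have hB := B_ne τ
  have hcompl : ∀ ω, ω ∈ (f τ '' Metric.ball 0 1)ᶜ ↔ ∃ s : ℝ, 0 ≤ s ∧ ω = (1 + τ*I)/4 + s * (-(B τ)) := by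
    intro ω; rw [Set.mem_compl_iff, f_image, not_not]
  refine ⟨?_, f_inj τ, ?_, ?_, ?_, ?_⟩
  · intro z hz
    exact (f_deriv τ (one_add_ne hz)).differentiableAt.differentiableWithinAt
  · unfold f w; norm_num
  · have h := (f_deriv τ (z := 0) (by norm_num)).deriv
    rw [h]
    unfold B w
    have ht := tau_ne τ
    norm_num
    field_simp
    norm_num
  · refine ⟨fun s => (1 + τ*I)/4 + s * (-(B τ)), ?_, ?_, ?_, ?_, ?_, 0, fun n => n, ?_, ?_, ?_, ?_⟩
    · fun_prop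
    · intro x _ y _ h
      simp only [add_right_inj] at h
      have := mul_right_cancel₀ (neg_ne_zero.mpr hB) h
      exact_mod_cast this
    · simp
    · have h1 : Tendsto (fun s : ℝ => s * ‖B τ‖ - ‖(1 + τ*I : ℂ)/4‖) atTop atTop :=
        tendsto_atTop_add_const_right _ _ (tendsto_id.atTop_mul_const (norm_pos_iff.mpr hB))
      refine tendsto_atTop_mono' _ ?_ h1
      filter_upwards [eventually_ge_atTop (0:ℝ)] with s hs
      have h2 : ‖(s:ℂ) * (-(B τ))‖ = s * ‖B τ‖ := by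
        rw [norm_mul, norm_neg, Complex.norm_real, Real.norm_eq_abs, abs_of_nonneg hs]
      have h3 : ‖(s:ℂ) * (-(B τ))‖ ≤ ‖(1 + τ*I : ℂ)/4 + s * (-(B τ))‖ + ‖(1 + τ*I : ℂ)/4‖ := by
        have := norm_sub_le ((1 + τ*I : ℂ)/4 + s * (-(B τ))) ((1 + τ*I : ℂ)/4)
        rwa [add_sub_cancel_left] at this
      linarith
    · ext ω
      rw [hcompl]
      constructor
      · rintro ⟨s, hs, rfl⟩
        exact ⟨s, hs, rfl⟩
      · rintro ⟨s, hs, rfl⟩
        exact ⟨s, hs, rfl⟩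
    · simp
    · exact Nat.strictMono_cast
    · intro i hi; omega
    · apply AnalyticOnNhd.analyticOn
      intro s _
      have h1 : AnalyticAt ℝ (fun s : ℝ => (s : ℂ)) s := Complex.ofRealCLM.analyticAt s
      exact analyticAt_const.add (h1.mul analyticAt_const)
  · refine ⟨Complex.arg (-(B τ)), fun ω hω hne => ?_⟩
    obtain ⟨s, hs, h⟩ := (hcompl ω).mp hω
    have hs0 : 0 < s := by
      rcases hs.eq_or_lt with h0 | h0
      · exfalso; apply hne; rw [h, ← h0]; simp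
      · exact h0
    refine ⟨s * ‖-(B τ)‖, mul_pos hs0 (norm_pos_iff.mpr (neg_ne_zero.mpr hB)), Complex.arg (-(B τ)), ?_, ?_⟩
    · constructor
      · exact le_rfl
      · have := mul_pos hα Real.pi_pos
        linarith
    · rw [h]
      push_cast
      rw [mul_assoc, Complex.norm_mul_exp_arg_mul_I]

lemma f_inf (τ : ℝ) : Tendsto (f τ) (𝓝[Metric.ball 0 1] (-1)) (cocompact ℂ) := by
  have hB := B_ne τ
  rw [← Metric.cobounded_eq_cocompact, ← tendsto_norm_atTop_iff_cobounded]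
  have h1 : Tendsto (fun z : ℂ => 1 + z) (𝓝[Metric.ball 0 1] (-1)) (𝓝[≠] 0) := by
    apply tendsto_nhdsWithin_of_tendsto_nhds_of_eventually_within
    · have : Tendsto (fun z : ℂ => 1 + z) (𝓝 (-1)) (𝓝 (1 + (-1))) := (continuous_const.add continuous_id).tendsto _
      rw [add_neg_cancel] at this
      exact this.mono_left nhdsWithin_le_nhds
    · filter_upwards [self_mem_nhdsWithin] with z hz
      exact one_add_ne hz
  have h2 : Tendsto (fun z : ℂ => ‖(1 + z)⁻¹‖) (𝓝[Metric.ball 0 1] (-1)) atTop :=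
    tendsto_norm_cobounded_atTop.comp (Filter.tendsto_inv₀_nhdsNE_zero.comp h1)
  -- u = 2/(1+z) - 1 + τ I
  have h3 : Tendsto (fun z : ℂ => ‖w z + τ*I‖) (𝓝[Metric.ball 0 1] (-1)) atTop := by
    have h4 : Tendsto (fun z : ℂ => 2 * ‖(1 + z)⁻¹‖ - ‖(-1 + τ*I : ℂ)‖) (𝓝[Metric.ball 0 1] (-1)) atTop :=
      tendsto_atTop_add_const_right _ _ (h2.const_mul_atTop (by norm_num))
    refine tendsto_atTop_mono' _ ?_ h4
    filter_upwards [self_mem_nhdsWithin] with z hz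
    have h5 := one_add_ne hz
    have e : w z + τ*I = 2 * (1+z)⁻¹ + (-1 + τ*I) := by
      unfold w; field_simp; ring
    have h6 : ‖2 * (1+z)⁻¹‖ ≤ ‖2 * (1+z)⁻¹ + (-1 + τ*I)‖ + ‖(-1 + τ*I : ℂ)‖ := by
      have := norm_sub_le (2 * (1+z)⁻¹ + (-1 + τ*I)) (-1 + τ*I : ℂ)
      rwa [add_sub_cancel_right] at this
    have h7 : ‖2 * (1+z)⁻¹‖ = 2 * ‖(1+z)⁻¹‖ := by rw [norm_mul]; norm_num
    rw [e]; linarith
  have h8 : Tendsto (fun z : ℂ => ‖B τ‖ * (‖w z + τ*I‖^2 - ‖(1 + τ*I : ℂ)^2‖)) (𝓝[Metric.ball 0 1] (-1)) atTop :=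
    Tendsto.const_mul_atTop (norm_pos_iff.mpr hB)
      (tendsto_atTop_add_const_right _ _ ((tendsto_pow_atTop (by norm_num)).comp h3))
  refine tendsto_atTop_mono (fun z => ?_) h8
  unfold f
  rw [norm_mul]
  gcongr
  rw [← norm_pow]
  exact norm_sub_norm_le _ _

lemma f_tip {φ : ℝ} (hφ : φ ∈ Set.Ioo (-Real.pi) Real.pi) :
    Tendsto (f (Real.tan (φ/2))) (𝓝[Metric.ball 0 1] (Complex.exp (φ * I))) (𝓝 ((1 + (Real.tan (φ/2) : ℝ)*I)/4)) := by
  have hc : 0 < Real.cos (φ/2) := Real.cos_pos_of_mem_Ioo ⟨by linarith [hφ.1], by linarith [hφ.2]⟩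
  set C := Real.cos (φ/2) with hC
  set S := Real.sin (φ/2) with hS
  have hCS : C^2 + S^2 = 1 := by rw [hC, hS]; exact Real.cos_sq_add_sin_sq _
  have hE : Complex.exp (φ * I) = ((C:ℂ) + S*I)^2 := by
    have e1 : (φ * I : ℂ) = ((2:ℕ):ℂ) * (((φ/2 : ℝ) : ℂ) * I) := by push_cast; ring
    rw [e1, Complex.exp_nat_mul, Complex.exp_mul_I, ← Complex.ofReal_cos, ← Complex.ofReal_sin]
  have hCS' : (C:ℂ)^2 + (S:ℂ)^2 = 1 := by exact_mod_cast hCS
  have hne0 : ((C:ℂ) + S*I) ≠ 0 := by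
    intro h
    have := congrArg Complex.re h
    simp at this; linarith
  have hC0 : (C:ℂ) ≠ 0 := by exact_mod_cast hc.ne'
  have e2 : 1 + Complex.exp (φ * I) = 2 * C * ((C:ℂ) + S*I) := by
    rw [hE]; linear_combination -(1:ℂ) * hCS' + (S:ℂ)^2 * I_sq
  have e3 : 1 - Complex.exp (φ * I) = -(2 * I * S * ((C:ℂ) + S*I)) := by
    rw [hE]; linear_combination -(1:ℂ) * hCS' + (S:ℂ)^2 * I_sq
  have hne : 1 + Complex.exp (φ * I) ≠ 0 := by
    rw [e2]; exact mul_ne_zero (mul_ne_zero (by norm_num) hC0) hne0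
  have hw : w (Complex.exp (φ * I)) = -((Real.tan (φ/2) : ℝ) * I) := by
    have htan : Real.tan (φ/2) = S/C := Real.tan_eq_sin_div_cos _
    unfold w
    have hSC : (S:ℂ)/C*C = S := div_mul_cancel₀ _ hC0
    rw [e2, e3, htan, Complex.ofReal_div, div_eq_iff (mul_ne_zero (mul_ne_zero two_ne_zero hC0) hne0)]
    linear_combination (2*I*((C:ℂ)+S*I)) * hSC
  have hcont : ContinuousAt (f (Real.tan (φ/2))) (Complex.exp (φ * I)) :=
    (f_deriv _ hne).continuousAt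
  have hval : f (Real.tan (φ/2)) (Complex.exp (φ * I)) = (1 + (Real.tan (φ/2) : ℝ)*I)/4 := by
    unfold f
    rw [hw]
    have ht := tau_ne (Real.tan (φ/2))
    unfold B
    rw [neg_add_cancel]
    field_simp
    ring
  have := hcont.tendsto.mono_left (nhdsWithin_le_nhds (s := Metric.ball 0 1))
  rwa [hval] at this

/-- For every `α ∈ (0,2]` the supremum `Φ(α)` equals `π`. -/
theorem result : ∀ α ∈ Set.Ioc (0:ℝ) 2,
    (∀ φ ∈ Set.Ioo (-Real.pi) Real.pi, |φ| ∈ PhiSet α) ∧ IsLUB (PhiSet α) Real.pi := by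
  intro α hα
  have h1 : ∀ φ ∈ Set.Ioo (-Real.pi) Real.pi, |φ| ∈ PhiSet α := by
    intro φ hφ
    exact ⟨f (Real.tan (φ/2)), (1 + (Real.tan (φ/2) : ℝ)*I)/4, φ, f_sigma hα.1 _, hφ, f_inf _, f_tip hφ, rfl⟩
  refine ⟨h1, ?_, ?_⟩
  · rintro x ⟨_, _, φ, _, hφ, _, _, rfl⟩
    exact (abs_lt.mpr hφ).le
  · intro b hb
    by_contra hc
    push Not at hc
    have hb0 : 0 ≤ b := by
      have := hb (h1 0 ⟨by linarith [Real.pi_pos], Real.pi_pos⟩)
      simpa using this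
    have h2 := hb (h1 ((b + Real.pi)/2) ⟨by linarith [Real.pi_pos], by linarith⟩)
    rw [abs_of_nonneg (by linarith [Real.pi_pos])] at h2
    linarith

end
end Pool.Agent.Results.MP_2e7b1e_an.PhiEqPi
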