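import Mathlib

set_option autoImplicit false

namespace Pool.Agent.Results.MP_2e7b1e_an.TipAngle

open Metric Set Filter Topology

/-- The class `S`. -/
def ClassS (f : ℂ → ℂ) : Prop :=
  DifferentiableOn ℂ f (ball 0 1) ∧ InjOn f (ball 0 1) ∧ f 0 = 0 ∧ deriv f 0 = 1

/-- `γ`, restricted to `[0,∞)`, is a piecewise analytic Jordan arc from `w₀` to `∞`
(finitely many corners, every piece analytic and regular up to its endpoints). -/
def IsSlitParam (γ : ℝ → ℂ) (w₀ : ℂ) : Prop :=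
  γ 0 = w₀ ∧ ContinuousOn γ (Ici 0) ∧ InjOn γ (Ici 0) ∧
  Tendsto (fun t => ‖γ t‖) atTop atTop ∧
  (∃ T : Finset ℝ, ∀ t : ℝ, 0 < t → t ∉ T → AnalyticAt ℝ γ t ∧ deriv γ t ≠ 0) ∧
  (∀ t : ℝ, 0 ≤ t → ∃ g : ℝ → ℂ, AnalyticAt ℝ g t ∧ deriv g t ≠ 0 ∧ ∀ᶠ s in 𝓝[≥] t, γ s = g s) ∧
  (∀ t : ℝ, 0 < t → ∃ g : ℝ → ℂ, AnalyticAt ℝ g t ∧ deriv g t ≠ 0 ∧ ∀ᶠ s in 𝓝[≤] t, γ s = g s)

/-- The slit `γ([0,∞))` lies in an infinite sector with vertex `w₀` and opening `α π`. -/
def InSector (α : ℝ) (γ : ℝ → ℂ) (w₀ : ℂ) : Prop :=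
  ∃ θ₀ : ℝ, ∀ w ∈ γ '' Ici 0, w ≠ w₀ →
    ∃ θ ∈ Icc θ₀ (θ₀ + α * Real.pi), w - w₀ = (‖w - w₀‖ : ℂ) * Complex.exp (θ * Complex.I)

/-- `f ∈ Σ_α` with `f(-1) = ∞` and `f(e^{iφ})` the tip of the slit (boundary values as limits),
where `φ ∈ (-π, π)`; the slit is parametrised by `γ`. -/
def TipAngle (α : ℝ) (f : ℂ → ℂ) (γ : ℝ → ℂ) (φ : ℝ) : Prop :=
  ClassS f ∧ (∃ w₀ : ℂ, IsSlitParam γ w₀ ∧ (f '' ball 0 1)ᶜ = γ '' Ici 0 ∧ InSector α γ w₀ ∧
    Tendsto f (𝓝[ball 0 1] (-1)) (cocompact ℂ) ∧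
    Tendsto f (𝓝[ball 0 1] (Complex.exp (φ * Complex.I))) (𝓝 w₀)) ∧
  φ ∈ Ioo (-Real.pi) Real.pi

/-- All values of `|φ_f|`. -/
def TipValues (α : ℝ) : Set ℝ :=
  {x | ∃ (f : ℂ → ℂ) (γ : ℝ → ℂ) (φ : ℝ), TipAngle α f γ φ ∧ x = |φ|}

/-- All values of `|φ_f|` for those `f` whose slit is a straight closed half-line. -/
def HalfLineTipValues (α : ℝ) : Set ℝ :=
  {x | ∃ (f : ℂ → ℂ) (p q : ℂ) (φ : ℝ), TipAngle α f (fun t => p + t * q) φ ∧ x = |φ|}

section aux

variable (τ : ℝ)

/-- `a = 1 + iτ` -/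
noncomputable def aa : ℂ := 1 + τ * Complex.I

noncomputable def ww (z : ℂ) : ℂ := (1 - z) / (1 + z)

noncomputable def ff (z : ℂ) : ℂ := -(1 / (4 * aa τ)) * ((ww z + τ * Complex.I) ^ 2 - aa τ ^ 2)

theorem aa_ne : aa τ ≠ 0 := by
  intro h
  have := congrArg Complex.re h
  simp [aa] at this

theorem one_add_ne {z : ℂ} (hz : z ∈ ball (0 : ℂ) 1) : 1 + z ≠ 0 := by
  intro h
  have h1 : z = -1 := by linear_combination h
  rw [h1] at hz
  simp at hz

theorem ww_re {z : ℂ} (hz : z ∈ ball (0 : ℂ) 1) : 0 < (ww z).re := by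
  have h0 : Complex.normSq z < 1 := by
    rw [Complex.normSq_eq_norm_sq]
    have : ‖z‖ < 1 := by simpa using hz
    nlinarith [norm_nonneg z]
  have h1 : 0 < Complex.normSq (1 + z) := Complex.normSq_pos.mpr (one_add_ne hz)
  unfold ww
  rw [Complex.div_re]
  rw [← add_div]
  apply div_pos _ h1
  rw [Complex.normSq_apply] at h0
  simp
  nlinarith

theorem ww_inj {z z' : ℂ} (hz : z ∈ ball (0 : ℂ) 1) (hz' : z' ∈ ball (0 : ℂ) 1)
    (h : ww z = ww z') : z = z' := by
  unfold ww at h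
  rw [div_eq_div_iff (one_add_ne hz) (one_add_ne hz')] at h
  linear_combination (-1 / 2 : ℂ) * h

theorem ff_classS : ClassS (ff τ) := by
  have ha := aa_ne τ
  refine ⟨?_, ?_, ?_, ?_⟩
  · intro z hz
    have h1 := one_add_ne hz
    unfold ff ww
    apply DifferentiableAt.differentiableWithinAt
    fun_prop (disch := assumption)
  · intro z hz z' hz' h
    unfold ff at h
    have hc : -(1 / (4 * aa τ)) ≠ 0 := by
      simp [ha]
    have h2 := mul_left_cancel₀ hc h
    have h3 : (ww z + τ * Complex.I) ^ 2 = (ww z' + τ * Complex.I) ^ 2 := by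
      linear_combination h2
    rcases sq_eq_sq_iff_eq_or_eq_neg.mp h3 with h4 | h4
    · exact ww_inj hz hz' (by linear_combination h4)
    · exfalso
      have r1 := ww_re hz
      have r2 := ww_re hz'
      have := congrArg Complex.re h4
      simp at this
      linarith
  · simp [ff, ww, aa]
  · have hw : HasDerivAt ww (-2) 0 := by
      have h1 : HasDerivAt (fun z : ℂ => (1 - z) / (1 + z))
          (((-1) * (1 + 0) - (1 - 0) * 1) / (1 + 0) ^ 2) 0 := by
        apply HasDerivAt.div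
        · simpa using (hasDerivAt_id (0 : ℂ)).const_sub 1
        · simpa using (hasDerivAt_id (0 : ℂ)).const_add 1
        · simp
      have h2 : (((-1 : ℂ) * (1 + 0) - (1 - 0) * 1) / (1 + 0) ^ 2) = -2 := by norm_num
      rw [h2] at h1
      exact h1
    have h2 : HasDerivAt (ff τ) (-(1 / (4 * aa τ)) * (2 * (ww 0 + τ * Complex.I) * (-2))) 0 := by
      have h3 := (((hw.add_const (τ * Complex.I)).pow 2).sub_const (aa τ ^ 2)).const_mul
        (-(1 / (4 * aa τ)))
      refine HasDerivAt.congr_deriv h3 ?_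
      norm_num
    rw [h2.deriv]
    have : ww 0 + τ * Complex.I = aa τ := by simp [ww, aa]
    rw [this]
    field_simp
    norm_num

theorem ff_range : (ff τ '' ball 0 1)ᶜ = (fun t : ℝ => aa τ / 4 + t * (1 / (4 * aa τ))) '' Ici 0 := by
  have ha := aa_ne τ
  ext v
  simp only [mem_compl_iff, mem_image, mem_Ici, not_exists, not_and]
  constructor
  · intro h
    set q : ℂ := aa τ ^ 2 - 4 * aa τ * v with hq
    by_cases hs : q ∈ Complex.slitPlane
    · exfalso
      set u : ℂ := q ^ ((1 : ℂ) / 2) with hu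
      have hu2 : u ^ 2 = q := by
        have e0 : ((2 : ℕ) : ℂ) * ((1 : ℂ) / 2) = 1 := by norm_num
        rw [hu, ← Complex.cpow_nat_mul, e0, Complex.cpow_one]
      have hure : 0 < u.re := by
        rw [hu]
        have := Complex.cpow_def_of_ne_zero (Complex.slitPlane_ne_zero hs) (1 / 2 : ℂ)
        rw [this, Complex.exp_re]
        apply mul_pos (Real.exp_pos _)
        apply Real.cos_pos_of_mem_Ioo
        have e1 : (Complex.log q * (1 / 2)).im = Complex.arg q / 2 := by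
          rw [show Complex.log q * (1 / 2) = Complex.log q / 2 by ring]
          have : (2 : ℂ) = ((2 : ℝ) : ℂ) := by norm_num
          rw [this, Complex.div_ofReal_im, Complex.log_im]
        rw [e1]
        have h1 := Complex.arg_le_pi q
        have h2 := Complex.neg_pi_lt_arg q
        have h3 : Complex.arg q ≠ Real.pi := Complex.slitPlane_arg_ne_pi hs
        have h4 : Complex.arg q < Real.pi := lt_of_le_of_ne h1 h3
        constructor <;> linarith
      set w : ℂ := u - τ * Complex.I with hw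
      have hwre : 0 < w.re := by simp [hw, hure]
      have hw1 : 1 + w ≠ 0 := by
        intro h0
        have := congrArg Complex.re h0
        simp at this
        linarith
      have hz : (1 - w) / (1 + w) ∈ ball (0 : ℂ) 1 := by
        rw [mem_ball_zero_iff, norm_div, div_lt_one (norm_pos_iff.mpr hw1)]
        apply lt_of_pow_lt_pow_left₀ 2 (norm_nonneg _)
        rw [← Complex.normSq_eq_norm_sq, ← Complex.normSq_eq_norm_sq, Complex.normSq_apply,
          Complex.normSq_apply]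
        simp
        nlinarith
      apply h _ hz
      have e2 : ww ((1 - w) / (1 + w)) = w := by
        unfold ww
        have e3 : 1 + (1 - w) / (1 + w) = 2 / (1 + w) := by field_simp; ring
        have e4 : 1 - (1 - w) / (1 + w) = 2 * w / (1 + w) := by field_simp; ring
        rw [e3, e4]
        field_simp
      unfold ff
      rw [e2]
      have e5 : w + τ * Complex.I = u := by rw [hw]; ring
      rw [e5, hu2, hq]
      field_simp
      ring
    · -- q = -s
      rw [Complex.mem_slitPlane_iff] at hs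
      push Not at hs
      refine ⟨-q.re, by linarith [hs.1], ?_⟩
      have hqr : q = (q.re : ℂ) := by
        apply Complex.ext
        · simp
        · simp [hs.2]
      have : ((-q.re : ℝ) : ℂ) = -q := by
        rw [Complex.ofReal_neg, ← hqr]
      rw [this, hq]
      field_simp
      ring
  · rintro ⟨t, ht, rfl⟩ z hz heq
    have r1 := ww_re hz
    unfold ff at heq
    have h2 : (ww z + τ * Complex.I) ^ 2 = -(t : ℂ) := by
      field_simp at heq
      linear_combination -heq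
    set u := ww z + τ * Complex.I with hu
    have hur : 0 < u.re := by simp [hu, r1]
    have h3 := congrArg Complex.re h2
    have h4 := congrArg Complex.im h2
    rw [sq] at h3 h4
    simp at h3 h4
    have h5 : u.im = 0 := by
      have : 2 * (u.re * u.im) = 0 := by linarith
      have h6 : u.re * u.im = 0 := by linarith
      rcases mul_eq_zero.mp h6 with h | h
      · exact absurd h hur.ne'
      · exact h
    rw [h5] at h3
    nlinarith

theorem slit_ok : IsSlitParam (fun t : ℝ => aa τ / 4 + t * (1 / (4 * aa τ))) (aa τ / 4) := by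
  have ha := aa_ne τ
  have hq : (1 / (4 * aa τ)) ≠ 0 := by simp [ha]
  have hder : ∀ t : ℝ, HasDerivAt (fun t : ℝ => aa τ / 4 + t * (1 / (4 * aa τ)))
      (1 / (4 * aa τ)) t := by
    intro t
    have h1 : HasDerivAt (fun t : ℝ => (t : ℂ)) 1 t := Complex.ofRealCLM.hasDerivAt
    simpa using (h1.mul_const (1 / (4 * aa τ))).const_add (aa τ / 4)
  have hana : ∀ t : ℝ, AnalyticAt ℝ (fun t : ℝ => aa τ / 4 + t * (1 / (4 * aa τ))) t := by
    intro t
    have h1 : AnalyticAt ℝ (fun t : ℝ => (t : ℂ)) t := Complex.ofRealCLM.analyticAt t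
    exact analyticAt_const.add (h1.mul analyticAt_const)
  have hdne : ∀ t : ℝ, deriv (fun t : ℝ => aa τ / 4 + t * (1 / (4 * aa τ))) t ≠ 0 := by
    intro t
    rw [(hder t).deriv]; exact hq
  refine ⟨by simp, ?_, ?_, ?_, ⟨∅, fun t _ _ => ⟨hana t, hdne t⟩⟩,
    fun t _ => ⟨_, hana t, hdne t, Filter.Eventually.of_forall (fun _ => rfl)⟩,
    fun t _ => ⟨_, hana t, hdne t, Filter.Eventually.of_forall (fun _ => rfl)⟩⟩
  · exact fun t _ => (hder t).continuousAt.continuousWithinAt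
  · intro s _ t _ h
    have h1 : (s : ℂ) * (1 / (4 * aa τ)) = t * (1 / (4 * aa τ)) := by
      exact add_left_cancel h
    exact_mod_cast mul_right_cancel₀ hq h1
  · have hn : 0 < ‖1 / (4 * aa τ)‖ := norm_pos_iff.mpr hq
    have h1 : Tendsto (fun t : ℝ => t * ‖1 / (4 * aa τ)‖ - ‖aa τ / 4‖) atTop atTop :=
      tendsto_atTop_add_const_right _ _ (tendsto_id.atTop_mul_const hn)
    refine tendsto_atTop_mono' _ ?_ h1
    filter_upwards [eventually_ge_atTop (0 : ℝ)] with t ht
    have h2 : ‖(t : ℂ) * (1 / (4 * aa τ))‖ = t * ‖1 / (4 * aa τ)‖ := by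
      rw [norm_mul, Complex.norm_real, Real.norm_of_nonneg ht]
    have h3 := norm_sub_norm_le ((t : ℂ) * (1 / (4 * aa τ))) (-(aa τ / 4))
    rw [norm_neg, h2] at h3
    have h4 : (t : ℂ) * (1 / (4 * aa τ)) - -(aa τ / 4) = aa τ / 4 + t * (1 / (4 * aa τ)) := by ring
    rw [h4] at h3
    exact h3

theorem sector_ok {α : ℝ} (hα : 0 < α) :
    InSector α (fun t : ℝ => aa τ / 4 + t * (1 / (4 * aa τ))) (aa τ / 4) := by
  refine ⟨Complex.arg (1 / (4 * aa τ)), ?_⟩
  rintro w ⟨t, ht, rfl⟩ hne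
  refine ⟨Complex.arg (1 / (4 * aa τ)), ⟨le_rfl, ?_⟩, ?_⟩
  · have := mul_pos hα Real.pi_pos
    linarith
  · have e : aa τ / 4 + (t : ℂ) * (1 / (4 * aa τ)) - aa τ / 4 = t * (1 / (4 * aa τ)) := by ring
    simp only [e]
    rw [norm_mul, Complex.norm_real, Real.norm_of_nonneg ht]
    push_cast
    rw [mul_assoc, Complex.norm_mul_exp_arg_mul_I]

theorem tendsto_infty : Tendsto (ff τ) (𝓝[ball 0 1] (-1)) (cocompact ℂ) := by
  have ha := aa_ne τ
  have hq : -(1 / (4 * aa τ)) ≠ 0 := by simp [ha]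
  rw [← Metric.cobounded_eq_cocompact, ← tendsto_norm_atTop_iff_cobounded]
  have h1 : Tendsto (fun z : ℂ => ‖1 + z‖) (𝓝[ball 0 1] (-1)) (𝓝[>] 0) := by
    apply tendsto_nhdsWithin_of_tendsto_nhds_of_eventually_within
    · have : Tendsto (fun z : ℂ => ‖1 + z‖) (𝓝 (-1)) (𝓝 ‖1 + (-1 : ℂ)‖) :=
        (continuous_const.add continuous_id).norm.tendsto _
      simp only [add_neg_cancel, norm_zero] at this
      exact this.mono_left nhdsWithin_le_nhds
    · filter_upwards [self_mem_nhdsWithin] with z hz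
      exact norm_pos_iff.mpr (one_add_ne hz)
  have h2 : Tendsto (fun z : ℂ => ‖1 - z‖) (𝓝[ball 0 1] (-1)) (𝓝 2) := by
    have : Tendsto (fun z : ℂ => ‖1 - z‖) (𝓝 (-1)) (𝓝 ‖1 - (-1 : ℂ)‖) :=
      (continuous_const.sub continuous_id).norm.tendsto _
    have e : ‖1 - (-1 : ℂ)‖ = 2 := by norm_num
    rw [e] at this
    exact this.mono_left nhdsWithin_le_nhds
  have h3 : Tendsto (fun z : ℂ => ‖ww z‖) (𝓝[ball 0 1] (-1)) atTop := by
    have h4 := h2.pos_mul_atTop (by norm_num) (tendsto_inv_nhdsGT_zero.comp h1)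
    refine h4.congr (fun z => ?_)
    simp [ww, div_eq_mul_inv]
  have h5 : Tendsto (fun z : ℂ => ‖ww z + τ * Complex.I‖) (𝓝[ball 0 1] (-1)) atTop := by
    refine tendsto_atTop_mono (fun z => ?_)
      (tendsto_atTop_add_const_right _ (-‖(τ : ℂ) * Complex.I‖) h3)
    have := norm_sub_norm_le (ww z) (-((τ : ℂ) * Complex.I))
    rw [norm_neg, sub_neg_eq_add] at this
    linarith
  have h6 : Tendsto (fun z : ℂ => ‖ww z + τ * Complex.I‖ ^ 2) (𝓝[ball 0 1] (-1)) atTop :=
    (tendsto_pow_atTop (by norm_num)).comp h5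
  have h7 : Tendsto (fun z : ℂ => ‖(ww z + τ * Complex.I) ^ 2 - aa τ ^ 2‖)
      (𝓝[ball 0 1] (-1)) atTop := by
    refine tendsto_atTop_mono (fun z => ?_)
      (tendsto_atTop_add_const_right _ (-‖aa τ ^ 2‖) h6)
    have := norm_sub_norm_le ((ww z + τ * Complex.I) ^ 2) (aa τ ^ 2)
    rw [norm_pow] at this
    linarith
  have h8 := h7.const_mul_atTop (norm_pos_iff.mpr hq)
  refine h8.congr (fun z => ?_)
  rw [ff, norm_mul]

theorem tendsto_tip {φ : ℝ} (hφ : φ ∈ Ioo (-Real.pi) Real.pi) :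
    Tendsto (ff (Real.tan (φ / 2))) (𝓝[ball 0 1] (Complex.exp (φ * Complex.I)))
      (𝓝 (aa (Real.tan (φ / 2)) / 4)) := by
  set τ : ℝ := Real.tan (φ / 2) with hτ
  have ha := aa_ne τ
  have hcos : 0 < Real.cos (φ / 2) :=
    Real.cos_pos_of_mem_Ioo ⟨by linarith [hφ.1], by linarith [hφ.2]⟩
  set c : ℂ := (Real.cos (φ / 2) : ℂ) with hc
  set s : ℂ := (Real.sin (φ / 2) : ℂ) with hs
  have hc0 : c ≠ 0 := by
    rw [hc]; exact_mod_cast hcos.ne'
  have hcs : s ^ 2 + c ^ 2 = 1 := by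
    rw [hc, hs]; exact_mod_cast Real.sin_sq_add_cos_sq (φ / 2)
  have hτc : (τ : ℂ) = s / c := by
    rw [hτ, Real.tan_eq_sin_div_cos, Complex.ofReal_div]
  have hexp : Complex.exp (φ * Complex.I) = (c + s * Complex.I) ^ 2 := by
    rw [hc, hs, Complex.ofReal_cos, Complex.ofReal_sin, ← Complex.exp_mul_I,
      ← Complex.exp_nat_mul]
    congr 1
    push_cast
    ring
  have hI := Complex.I_sq
  have h1z : 1 + Complex.exp (φ * Complex.I) = 2 * c * (c + s * Complex.I) := by
    rw [hexp]; linear_combination (-1 : ℂ) * hcs + s ^ 2 * hI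
  have h1mz : 1 - Complex.exp (φ * Complex.I) = -2 * s * Complex.I * (c + s * Complex.I) := by
    rw [hexp]; linear_combination (-1 : ℂ) * hcs + s ^ 2 * hI
  have hcsI : c + s * Complex.I ≠ 0 := by
    intro h
    rw [h] at h1z
    have h2 : Complex.exp (φ * Complex.I) = 0 := by
      rw [hexp, h]; ring
    exact Complex.exp_ne_zero _ h2
  have hne : 1 + Complex.exp (φ * Complex.I) ≠ 0 := by
    rw [h1z]
    exact mul_ne_zero (mul_ne_zero two_ne_zero hc0) hcsI
  have hww : ww (Complex.exp (φ * Complex.I)) = -(τ * Complex.I) := by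
    unfold ww
    rw [h1z, h1mz, hτc]
    field_simp
  have hcont : ContinuousAt (ff τ) (Complex.exp (φ * Complex.I)) := by
    unfold ff ww
    fun_prop (disch := assumption)
  have hval : ff τ (Complex.exp (φ * Complex.I)) = aa τ / 4 := by
    unfold ff
    rw [hww]
    field_simp
    ring
  have := hcont.tendsto
  rw [hval] at this
  exact this.mono_left nhdsWithin_le_nhds

theorem tipAngle_ff {α : ℝ} (hα : 0 < α) {φ : ℝ} (hφ : φ ∈ Ioo (-Real.pi) Real.pi) :
    TipAngle α (ff (Real.tan (φ / 2)))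
      (fun t : ℝ => aa (Real.tan (φ / 2)) / 4 + t * (1 / (4 * aa (Real.tan (φ / 2))))) φ :=
  ⟨ff_classS _, ⟨_, slit_ok _, ff_range _, sector_ok _ hα, tendsto_infty _, tendsto_tip hφ⟩, hφ⟩

end aux

/-- `Φ(α) = π` for every `α ∈ (0,2]`; more precisely the values `|φ_f|` fill exactly `[0, π)`,
and half-line slits already give all of them. -/
theorem result : ∀ α : ℝ, 0 < α → α ≤ 2 →
    sSup (TipValues α) = Real.pi ∧ TipValues α = Ico 0 Real.pi ∧
    HalfLineTipValues α = Ico 0 Real.pi := by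
  intro α hα _
  have h1 : TipValues α ⊆ Ico 0 Real.pi := by
    rintro x ⟨f, γ, φ, h, rfl⟩
    exact ⟨abs_nonneg _, abs_lt.mpr h.2.2⟩
  have h2 : HalfLineTipValues α ⊆ TipValues α := by
    rintro x ⟨f, p, q, φ, h, rfl⟩
    exact ⟨f, _, φ, h, rfl⟩
  have h3 : Ico 0 Real.pi ⊆ HalfLineTipValues α := by
    intro x hx
    refine ⟨_, _, _, x, tipAngle_ff hα ⟨by linarith [hx.1, Real.pi_pos], hx.2⟩, ?_⟩
    exact (abs_of_nonneg hx.1).symm
  have h4 : TipValues α = Ico 0 Real.pi := Subset.antisymm h1 (h3.trans h2)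
  refine ⟨?_, h4, Subset.antisymm (h2.trans h1) h3⟩
  rw [h4]
  exact csSup_Ico Real.pi_pos

end Pool.Agent.Results.MP_2e7b1e_an.TipAngle
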